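import Mathlib

/-!
The example `(X - c) ^ (m + 1) - r ^ (m + 1)` with `c = -(1 - a) / 2`, `r = (1 + a) / 2`.
-/

set_option autoImplicit false

open Polynomial

namespace Pool.Agent.X104.Gap

/-- the zeros of the example, apart from `a` -/
noncomputable def exz (a : ℝ) (m : ℕ) (j : Fin m) : ℂ :=
  ((-(1 - a) / 2 : ℝ) : ℂ) +
    Complex.exp (2 * Real.pi * Complex.I / ((m + 1 : ℕ) : ℂ)) ^ ((j : ℕ) + 1) *
      (((1 + a) / 2 : ℝ) : ℂ)

lemma norm_root (m : ℕ) (k : ℕ) :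
    ‖Complex.exp (2 * Real.pi * Complex.I / ((m + 1 : ℕ) : ℂ)) ^ k‖ = 1 := by
  have h := Complex.isPrimitiveRoot_exp (m + 1) (Nat.succ_ne_zero m)
  rw [norm_pow, h.norm'_eq_one (Nat.succ_ne_zero m), one_pow]

lemma exz_norm {a : ℝ} (ha0 : 0 ≤ a) (ha1 : a ≤ 1) (m : ℕ) (j : Fin m) : ‖exz a m j‖ ≤ 1 := by
  unfold exz
  refine (norm_add_le _ _).trans ?_
  rw [norm_mul, norm_root, Complex.norm_real, Complex.norm_real, Real.norm_eq_abs,
    Real.norm_eq_abs, abs_of_nonneg (by linarith : 0 ≤ (1 + a) / 2),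
    abs_of_nonpos (by linarith : -(1 - a) / 2 ≤ 0)]
  linarith

lemma ex_prod (a : ℝ) (m : ℕ) :
    (X - C (a : ℂ)) * ∏ j, (X - C (exz a m j)) =
      (X - C ((-(1 - a) / 2 : ℝ) : ℂ)) ^ (m + 1) - C ((((1 + a) / 2 : ℝ) : ℂ) ^ (m + 1)) := by
  have h : IsPrimitiveRoot (Complex.exp (2 * Real.pi * Complex.I / ((m + 1 : ℕ) : ℂ))) (m + 1) :=
    Complex.isPrimitiveRoot_exp (m + 1) (Nat.succ_ne_zero m)
  have h1 := X_pow_sub_C_eq_prod h (Nat.succ_pos m)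
    (rfl : (((1 + a) / 2 : ℝ) : ℂ) ^ (m + 1) = (((1 + a) / 2 : ℝ) : ℂ) ^ (m + 1))
  have h2 := congrArg (fun p : ℂ[X] => p.comp (X - C ((-(1 - a) / 2 : ℝ) : ℂ))) h1
  simp only [sub_comp, pow_comp, X_comp, C_comp, prod_comp] at h2
  rw [h2, Finset.prod_range_succ', pow_zero, one_mul, mul_comm (X - C (a : ℂ)),
    Finset.prod_range]
  have h3 : (X : ℂ[X]) - C ((-(1 - a) / 2 : ℝ) : ℂ) - C ((((1 + a) / 2 : ℝ) : ℂ))
      = X - C (a : ℂ) := by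
    have : (a : ℂ) = ((-(1 - a) / 2 : ℝ) : ℂ) + (((1 + a) / 2 : ℝ) : ℂ) := by
      push_cast; ring
    rw [this, C_add]
    ring
  rw [h3]
  congr 1
  apply Finset.prod_congr rfl
  intro j _
  unfold exz
  rw [C_add]
  ring

lemma ex_deriv (a : ℝ) (m : ℕ) :
    derivative ((X - C (a : ℂ)) * ∏ j, (X - C (exz a m j))) =
      C ((m : ℂ) + 1) * (X - C ((-(1 - a) / 2 : ℝ) : ℂ)) ^ m := by
  rw [ex_prod, derivative_sub, derivative_C, sub_zero, derivative_X_sub_C_pow]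
  push_cast
  simp

lemma ex_roots (a : ℝ) (m : ℕ) :
    (derivative ((X - C (a : ℂ)) * ∏ j, (X - C (exz a m j)))).roots =
      Multiset.replicate m ((-(1 - a) / 2 : ℝ) : ℂ) := by
  rw [ex_deriv, roots_C_mul _ (by exact_mod_cast Nat.succ_ne_zero m), roots_pow, roots_X_sub_C,
    Multiset.nsmul_singleton]

end Pool.Agent.X104.Gap
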