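import Pool.Agent.X104.Gap.Gp1

/-!
The middle range with a slack, part 2 (compare `Pool.Agent.H218R3.Sd2`): the polynomial on the
segment to the left of `a`.
-/

set_option autoImplicit false

open Complex

namespace Pool.Agent.X104.Gap

open Pool.Agent.H218R3.Sd (pp dp A yy lam aux_u Y pp_self)

variable {τ a : ℝ} {N : ℕ} {z w : Fin N → ℂ}

lemma CG.Y_eq (h : CG τ a N z w) (s : ℝ) : dp w ((a : ℂ) - s) = dp w (a : ℂ) * Y a w s := by
  unfold dp Y
  rw [mul_assoc, ← Finset.prod_mul_distrib]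
  congr 1
  apply Finset.prod_congr rfl
  intro k _
  unfold yy
  have : (a : ℂ) - w k ≠ 0 := sub_ne_zero.mpr (h.hwa k).symm
  field_simp
  ring

lemma CG.dpa_ne (h : CG τ a N z w) : dp w (a : ℂ) ≠ 0 := by
  have := h.A_pos
  unfold A at this
  exact norm_pos_iff.mp this

lemma CG.Y_sub (h : CG τ a N z w) (ha : 0 < a) (ha1 : a ≤ 1) (hτa : 2 * τ ≤ a ^ 2) {κ s : ℝ}
    (_hκ : 0 < κ) (hκN : 2 * κ ^ 2 ≤ N) (hs : 0 ≤ s) (hsκ : s * N ≤ κ) :
    ‖Y a w s - Complex.exp (-(lam a w) * s)‖ ≤ Real.exp (6 * κ ^ 2 / N) - 1 := by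
  have hN : (0 : ℝ) < N := by
    have : 0 < κ ^ 2 := by positivity
    linarith
  have hI : ∑ k, (‖w k - (a : ℂ)‖ ^ 2)⁻¹ ≤ 2 * N := by
    refine h.hI.trans ?_
    have := h.ht1
    nlinarith
  have hs2 : s ^ 2 * (2 * N) ≤ 2 * κ ^ 2 / N := by
    rw [le_div_iff₀ hN]
    have : 0 ≤ s * N := by positivity
    nlinarith
  have hs2' : s ^ 2 * (2 * N) ≤ 1 := hs2.trans ((div_le_one hN).mpr hκN)
  have hu : ∀ k, ‖(s : ℂ) * yy a w k‖ ^ 2 = s ^ 2 * (‖w k - (a : ℂ)‖ ^ 2)⁻¹ := by
    intro k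
    rw [norm_mul, mul_pow, h.norm_yy, Complex.norm_real, Real.norm_of_nonneg hs]
  have hu1 : ∀ k, ‖(s : ℂ) * yy a w k‖ ≤ 1 := by
    intro k
    have h1 : (‖w k - (a : ℂ)‖ ^ 2)⁻¹ ≤ 2 * N := by
      refine le_trans ?_ hI
      exact Finset.single_le_sum (f := fun k => (‖w k - (a : ℂ)‖ ^ 2)⁻¹)
        (fun i _ => (h.s_pos i).le) (Finset.mem_univ k)
    have h2 : ‖(s : ℂ) * yy a w k‖ ^ 2 ≤ 1 := by
      rw [hu]
      exact (mul_le_mul_of_nonneg_left h1 (sq_nonneg s)).trans hs2'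
    have := norm_nonneg ((s : ℂ) * yy a w k)
    nlinarith
  have e1 : Y a w s = Complex.exp (-(lam a w) * s) *
      ∏ k, (1 + ((1 - (s : ℂ) * yy a w k) * Complex.exp ((s : ℂ) * yy a w k) - 1)) := by
    have : ∀ k ∈ (Finset.univ : Finset (Fin N)),
        (1 + ((1 - (s : ℂ) * yy a w k) * Complex.exp ((s : ℂ) * yy a w k) - 1))
        = (1 - (s : ℂ) * yy a w k) * Complex.exp ((s : ℂ) * yy a w k) := by
      intro k _; ring
    rw [Finset.prod_congr rfl this, Finset.prod_mul_distrib, ← Complex.exp_sum, ← Finset.mul_sum]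
    have e2 : -(lam a w) * s = -((s : ℂ) * ∑ k, yy a w k) := by
      unfold lam; ring
    rw [e2, Complex.exp_neg]
    unfold Y
    have := Complex.exp_ne_zero ((s : ℂ) * ∑ k, yy a w k)
    field_simp
  have e3 : Y a w s - Complex.exp (-(lam a w) * s) = Complex.exp (-(lam a w) * s) *
      (∏ k, (1 + ((1 - (s : ℂ) * yy a w k) * Complex.exp ((s : ℂ) * yy a w k) - 1)) - 1) := by
    rw [mul_sub, ← e1, mul_one]
  rw [e3, norm_mul]
  have h1 : ‖Complex.exp (-(lam a w) * s)‖ ≤ 1 := by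
    rw [Complex.norm_exp]
    apply Real.exp_le_one_iff.mpr
    have := h.re_lam ha ha1 hτa
    have hl : 0 ≤ (lam a w).re := le_trans (by positivity) this
    simp only [Complex.mul_re, Complex.neg_re, Complex.ofReal_re, Complex.neg_im,
      Complex.ofReal_im, mul_zero, sub_zero]
    nlinarith
  have h2 := Finset.norm_prod_one_add_sub_one_le (Finset.univ : Finset (Fin N))
    (fun k => (1 - (s : ℂ) * yy a w k) * Complex.exp ((s : ℂ) * yy a w k) - 1)
  have h3 : ∑ k, ‖(1 - (s : ℂ) * yy a w k) * Complex.exp ((s : ℂ) * yy a w k) - 1‖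
      ≤ 6 * κ ^ 2 / N := by
    calc _ ≤ ∑ k, 3 * ‖(s : ℂ) * yy a w k‖ ^ 2 :=
          Finset.sum_le_sum (fun k _ => aux_u (hu1 k))
      _ = 3 * (s ^ 2 * ∑ k, (‖w k - (a : ℂ)‖ ^ 2)⁻¹) := by
          rw [← Finset.mul_sum, Finset.mul_sum (s := Finset.univ) (a := s ^ 2)]
          congr 1
          exact Finset.sum_congr rfl (fun k _ => hu k)
      _ ≤ 3 * (s ^ 2 * (2 * N)) := by gcongr
      _ ≤ 3 * (2 * κ ^ 2 / N) := by gcongr
      _ = _ := by ring
  calc _ ≤ 1 * (Real.exp (6 * κ ^ 2 / N) - 1) := by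
        refine mul_le_mul h1 (h2.trans ?_) (norm_nonneg _) zero_le_one
        have := Real.exp_le_exp.mpr h3
        linarith
    _ = _ := one_mul _

lemma CG.pp_deriv (h : CG τ a N z w) (s : ℝ) :
    HasDerivAt (fun s : ℝ => pp a z ((a : ℂ) - s)) (-dp w ((a : ℂ) - s)) s := by
  have h1 : HasDerivAt (fun s : ℂ => (a : ℂ) - s) (-1) (s : ℂ) := by
    simpa using (hasDerivAt_id (s : ℂ)).const_sub (a : ℂ)
  have h2 := (h.hd ((a : ℂ) - s)).comp (s : ℂ) h1
  have h3 := h2.comp_ofReal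
  simpa using h3

lemma CG.ff_deriv (h : CG τ a N z w) (s : ℝ) :
    HasDerivAt (fun s : ℝ => pp a z ((a : ℂ) - s) / (-dp w (a : ℂ))) (Y a w s) s := by
  have h1 := (h.pp_deriv s).div_const (-dp w (a : ℂ))
  rw [h.Y_eq] at h1
  have h2 := h.dpa_ne
  have h3 : -(dp w (a : ℂ) * Y a w s) / (-dp w (a : ℂ)) = Y a w s := by
    field_simp
  rwa [h3] at h1

/-- lower bound for the polynomial at `x < a` -/
lemma CG.lower (h : CG τ a N z w) (ha : 0 < a) (ha1 : a ≤ 1) (hτa : 2 * τ ≤ a ^ 2) {x κ : ℝ}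
    (hx : 0 < x) (hτx : 2 * τ ≤ a * x) (hκ : 0 < κ)
    (hκN : 2 * κ ^ 2 ≤ N) (hxa : x + κ / N ≤ a) :
    (1 - Real.exp (-(κ * a / 4)) - 2 * κ * (Real.exp (6 * κ ^ 2 / N) - 1)
      - (8 / x) * Real.exp (-(κ * x / 4))) * A a w ≤ 2 * N * ‖pp a z x‖ := by
  have hN : (0 : ℝ) < N := by
    have : 0 < κ ^ 2 := by positivity
    linarith
  set f : ℝ → ℂ := fun s => pp a z ((a : ℂ) - s) / (-dp w (a : ℂ)) with hf
  set E : ℝ := Real.exp (6 * κ ^ 2 / N) - 1 with hE
  set l := lam a w with hl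
  have hlre : N * a / 4 ≤ l.re := h.re_lam ha ha1 hτa
  have hl0 : 0 < l.re := lt_of_lt_of_le (by positivity) hlre
  have hlne : l ≠ 0 := by
    intro h0
    rw [h0] at hl0
    simp at hl0
  have hlnorm : ‖l‖ ≤ 2 * N := h.norm_lam
  have hlpos : 0 < ‖l‖ := norm_pos_iff.mpr hlne
  have hf0 : f 0 = 0 := by
    simp only [hf, Complex.ofReal_zero, sub_zero, pp_self, zero_div]
  set c : ℝ := κ / N with hc
  have hc0 : 0 < c := by positivity
  -- first part
  have hg : ∀ s : ℝ, HasDerivAt (fun s : ℝ => f s - (1 - Complex.exp (-l * s)) / l)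
      (Y a w s - Complex.exp (-l * s)) s := by
    intro s
    have h1 : HasDerivAt (fun s : ℂ => (1 - Complex.exp (-l * s)) / l)
        (Complex.exp (-l * s)) (s : ℂ) := by
      have h2 : HasDerivAt (fun s : ℂ => Complex.exp (-l * s)) (Complex.exp (-l * s) * (-l * 1))
          (s : ℂ) := ((hasDerivAt_id (s : ℂ)).const_mul (-l)).cexp
      have h3 := (h2.const_sub 1).div_const l
      have h4 : -(Complex.exp (-l * s) * (-l * 1)) / l = Complex.exp (-l * s) := by
        field_simp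
      rwa [h4] at h3
    exact (h.ff_deriv s).sub h1.comp_ofReal
  have part1 : ‖f c - (1 - Complex.exp (-l * c)) / l‖ ≤ E * c := by
    have h1 := norm_image_sub_le_of_norm_deriv_le_segment' (a := 0) (b := c)
      (f := fun s : ℝ => f s - (1 - Complex.exp (-l * s)) / l)
      (f' := fun s : ℝ => Y a w s - Complex.exp (-l * s)) (C := E)
      (fun s _ => (hg s).hasDerivWithinAt) (fun s hs => ?_) c ⟨hc0.le, le_rfl⟩
    · simpa [hf0] using h1
    · apply h.Y_sub ha ha1 hτa hκ hκN hs.1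
      have : s ≤ κ / N := hs.2.le
      rwa [le_div_iff₀ hN] at this
  -- main term
  have main : (1 - Real.exp (-(κ * a / 4))) / (2 * N) ≤ ‖(1 - Complex.exp (-l * c)) / l‖ := by
    rw [norm_div]
    have h1 : 1 - Real.exp (-(κ * a / 4)) ≤ ‖1 - Complex.exp (-l * c)‖ := by
      have h2 : ‖Complex.exp (-l * c)‖ ≤ Real.exp (-(κ * a / 4)) := by
        rw [Complex.norm_exp]
        apply Real.exp_le_exp.mpr
        simp only [Complex.mul_re, Complex.neg_re, Complex.ofReal_re, Complex.neg_im,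
          Complex.ofReal_im, mul_zero, sub_zero]
        have : κ * a / 4 = c * (N * a / 4) := by
          rw [hc]; field_simp
        rw [this]
        nlinarith
      have h3 := norm_sub_norm_le (1 : ℂ) (Complex.exp (-l * c))
      rw [norm_one] at h3
      linarith
    have h0 : 0 ≤ 1 - Real.exp (-(κ * a / 4)) := by
      have : Real.exp (-(κ * a / 4)) ≤ 1 := by
        apply Real.exp_le_one_iff.mpr
        have : 0 < κ * a / 4 := by positivity
        linarith
      linarith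
    calc _ ≤ (1 - Real.exp (-(κ * a / 4))) / ‖l‖ := by gcongr
      _ ≤ _ := by gcongr
  -- tail
  have hca : c ≤ a - x := by linarith
  have part2 : ‖f (a - x) - f c‖ ≤ (4 / (N * x)) * Real.exp (-(κ * x / 4)) := by
    set B : ℝ → ℝ := fun s => (4 / (N * x)) *
      (Real.exp (-(κ * x / 4)) - Real.exp (-(N * x / 4) * s)) with hB
    have h1 := image_norm_le_of_norm_deriv_right_le_deriv_boundary (a := c) (b := a - x)
      (f := fun s : ℝ => f s - f c) (f' := fun s => Y a w s)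
      (B := B) (B' := fun s => Real.exp (-(N * x / 4) * s))
      (fun s _ => ((h.ff_deriv s).sub_const (f c)).continuousAt.continuousWithinAt)
      (fun s _ => ((h.ff_deriv s).sub_const (f c)).hasDerivWithinAt)
      ?_ ?_ ?_ (x := a - x) ⟨hca, le_rfl⟩
    · refine h1.trans ?_
      rw [hB]
      have : 0 < Real.exp (-(N * x / 4) * (a - x)) := Real.exp_pos _
      have h2 : 0 ≤ 4 / (N * x) := by positivity
      refine mul_le_mul_of_nonneg_left ?_ h2
      linarith
    · rw [hB]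
      have : -(N * x / 4) * c = -(κ * x / 4) := by
        rw [hc]; field_simp
      simp only [sub_self, norm_zero, this, mul_zero, le_refl]
    · intro s
      rw [hB]
      have h2 : HasDerivAt (fun s : ℝ => Real.exp (-(N * x / 4) * s))
          (Real.exp (-(N * x / 4) * s) * (-(N * x / 4) * 1)) s :=
        ((hasDerivAt_id s).const_mul (-(N * x / 4))).exp
      have h3 := (h2.const_sub (Real.exp (-(κ * x / 4)))).const_mul (4 / (N * x))
      have h4 : (4 / (N * x)) * -(Real.exp (-(N * x / 4) * s) * (-(N * x / 4) * 1))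
          = Real.exp (-(N * x / 4) * s) := by
        field_simp
      rwa [h4] at h3
    · intro s hs
      have hs0 : 0 ≤ s := hc0.le.trans hs.1
      have hxs : x ≤ a - s := by linarith [hs.2]
      have h2 := h.dp_le_real ha ha1 (x := a - s) (by linarith) (by linarith)
        (hτx.trans (by gcongr))
      have h3 : ((a - s : ℝ) : ℂ) = (a : ℂ) - s := by push_cast; rfl
      rw [h3, h.Y_eq, norm_mul] at h2
      have h4 : ‖Y a w s‖ ≤ Real.exp (-(N / 4 : ℝ) * ((a - s) * (a - (a - s)))) :=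
        le_of_mul_le_mul_left h2 h.A_pos
      refine h4.trans (Real.exp_le_exp.mpr ?_)
      have : x * s ≤ (a - s) * s := by
        apply mul_le_mul_of_nonneg_right _ hs0
        linarith [hs.2]
      have hN0 : (0 : ℝ) ≤ N := hN.le
      nlinarith
  -- combine
  have hfx : ‖f (a - x)‖ = ‖pp a z x‖ / A a w := by
    simp only [hf]
    rw [norm_div, norm_neg]
    congr 3
    push_cast
    ring
  have h5 : (1 - Real.exp (-(κ * a / 4))) / (2 * N) - E * c
      - (4 / (N * x)) * Real.exp (-(κ * x / 4)) ≤ ‖f (a - x)‖ := by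
    have h6 : ‖(1 - Complex.exp (-l * c)) / l‖ ≤ ‖f (a - x)‖ + ‖f (a - x) - f c‖ +
        ‖f c - (1 - Complex.exp (-l * c)) / l‖ := by
      have e : (1 - Complex.exp (-l * c)) / l = f (a - x) - (f (a - x) - f c) -
        (f c - (1 - Complex.exp (-l * c)) / l) := by ring
      calc ‖(1 - Complex.exp (-l * c)) / l‖
          = ‖f (a - x) - (f (a - x) - f c) - (f c - (1 - Complex.exp (-l * c)) / l)‖ := by
            rw [← e]
        _ ≤ ‖f (a - x) - (f (a - x) - f c)‖ + ‖f c - (1 - Complex.exp (-l * c)) / l‖ :=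
            norm_sub_le _ _
        _ ≤ _ := by gcongr; exact norm_sub_le _ _
    linarith
  rw [hfx, le_div_iff₀ h.A_pos] at h5
  have h6 := mul_le_mul_of_nonneg_left h5 (show (0 : ℝ) ≤ 2 * N by positivity)
  refine le_trans (le_of_eq ?_) h6
  rw [hc]
  field_simp
  ring

end Pool.Agent.X104.Gap
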