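import Pool.Agent.X104.Gap.Gp2

/-!
The middle range with a slack, part 3 (compare `Pool.Agent.H218R3.Sd3`): almost all zeros are close
to the unit circle.
-/

set_option autoImplicit false
set_option linter.unusedVariables false

open Complex Filter Topology

namespace Pool.Agent.X104.Gap

open Pool.Agent.H218R3.Sd (pp dp A yy lam q HH Del HH_lower HH_upper HH_le Del_nonneg norm_q
  pp_self exp_small)

/-- the slack tends to `0` and the degree to infinity -/
abbrev fil : Filter (ℝ × ℕ) := 𝓝[>] (0 : ℝ) ×ˢ (atTop : Filter ℕ)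

/-- a statement holding for all small `τ` and all large `N`, uniformly over `a` in `[ε, 1]` -/
def Ev (ε : ℝ) (P : ∀ (a : ℝ) (N : ℕ), (Fin N → ℂ) → (Fin N → ℂ) → Prop) : Prop :=
  ∀ᶠ t : ℝ × ℕ in fil, ∀ a ∈ Set.Icc ε 1, ∀ z w : Fin t.2 → ℂ, CG t.1 a t.2 z w → P a t.2 z w

lemma small_tau {c : ℝ} (hc : 0 < c) : ∀ᶠ t : ℝ × ℕ in fil, t.1 ≤ c := by
  have h1 : ∀ᶠ τ : ℝ in 𝓝[>] 0, τ ≤ c := by
    filter_upwards [Ioo_mem_nhdsGT hc] with τ hτ
    exact hτ.2.le
  exact (tendsto_fst (f := 𝓝[>] (0 : ℝ)) (g := (atTop : Filter ℕ))).eventually h1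

lemma large_N {Q : ℕ → Prop} (hQ : ∀ᶠ N : ℕ in atTop, Q N) : ∀ᶠ t : ℝ × ℕ in fil, Q t.2 :=
  (tendsto_snd (f := 𝓝[>] (0 : ℝ)) (g := (atTop : Filter ℕ))).eventually hQ

lemma Ev.and {ε : ℝ} {P Q : ∀ (a : ℝ) (N : ℕ), (Fin N → ℂ) → (Fin N → ℂ) → Prop}
    (hP : Ev ε P) (hQ : Ev ε Q) : Ev ε (fun a N z w => P a N z w ∧ Q a N z w) := by
  filter_upwards [hP, hQ] with t h1 h2 a ha z w h
  exact ⟨h1 a ha z w h, h2 a ha z w h⟩

lemma Ev.mono {ε : ℝ} {P Q : ∀ (a : ℝ) (N : ℕ), (Fin N → ℂ) → (Fin N → ℂ) → Prop}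
    (hP : Ev ε P) (hPQ : ∀ᶠ t : ℝ × ℕ in fil, ∀ a ∈ Set.Icc ε 1, ∀ z w : Fin t.2 → ℂ,
      CG t.1 a t.2 z w → P a t.2 z w → Q a t.2 z w) : Ev ε Q := by
  filter_upwards [hP, hPQ] with t h1 h2 a ha z w h
  exact h2 a ha z w h (h1 a ha z w h)

lemma Ev.all {ε : ℝ} {ι : Type*} (s : Finset ι)
    {P : ι → ∀ (a : ℝ) (N : ℕ), (Fin N → ℂ) → (Fin N → ℂ) → Prop}
    (hP : ∀ i ∈ s, Ev ε (P i)) : Ev ε (fun a N z w => ∀ i ∈ s, P i a N z w) := by
  have := (Filter.eventually_all_finset s).mpr hP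
  filter_upwards [this] with t h1 a ha z w h i hi
  exact h1 i hi a ha z w h

variable {ε : ℝ}

lemma L5 (hε : 0 < ε) {x : ℝ} (hx : 0 < x) (hxε : x < ε / 2) :
    Ev ε (fun a N z w => A a w ≤ 4 * N * ‖pp a z x‖) := by
  -- choose κ
  have t1 : Tendsto (fun κ : ℝ => Real.exp (-(κ * ε / 4))) atTop (𝓝 0) := by
    have : Tendsto (fun κ : ℝ => κ * ε / 4) atTop atTop :=
      (tendsto_id.atTop_mul_const hε).atTop_div_const four_pos
    exact Real.tendsto_exp_neg_atTop_nhds_zero.comp this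
  have t2 : Tendsto (fun κ : ℝ => (8 / x) * Real.exp (-(κ * x / 4))) atTop (𝓝 0) := by
    have : Tendsto (fun κ : ℝ => κ * x / 4) atTop atTop :=
      (tendsto_id.atTop_mul_const hx).atTop_div_const four_pos
    have := (Real.tendsto_exp_neg_atTop_nhds_zero.comp this).const_mul (8 / x)
    simpa using this
  obtain ⟨κ, h1, h2, hκ⟩ := ((t1.eventually (gt_mem_nhds (show (0 : ℝ) < 1 / 8 by norm_num))).and
    ((t2.eventually (gt_mem_nhds (show (0 : ℝ) < 1 / 8 by norm_num))).and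
      (eventually_gt_atTop (0 : ℝ)))).exists
  have e1 : ∀ᶠ N : ℕ in atTop, 2 * κ ^ 2 ≤ (N : ℝ) :=
    tendsto_natCast_atTop_atTop.eventually (eventually_ge_atTop (2 * κ ^ 2))
  have t3 : Tendsto (fun N : ℕ => κ / (N : ℝ)) atTop (𝓝 0) :=
    tendsto_const_div_atTop_nhds_zero_nat κ
  have e2 : ∀ᶠ N : ℕ in atTop, κ / (N : ℝ) < ε / 2 :=
    t3.eventually (gt_mem_nhds (by positivity))
  have t4 : Tendsto (fun N : ℕ => 2 * κ * (Real.exp (6 * κ ^ 2 / (N : ℝ)) - 1)) atTop (𝓝 0) := by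
    have h3 : Tendsto (fun N : ℕ => 6 * κ ^ 2 / (N : ℝ)) atTop (𝓝 0) :=
      tendsto_const_div_atTop_nhds_zero_nat _
    have h4 := (Real.continuous_exp.tendsto 0).comp h3
    have h5 := (h4.sub_const 1).const_mul (2 * κ)
    simpa using h5
  have e3 : ∀ᶠ N : ℕ in atTop, 2 * κ * (Real.exp (6 * κ ^ 2 / (N : ℝ)) - 1) < 1 / 8 :=
    t4.eventually (gt_mem_nhds (by norm_num))
  filter_upwards [large_N e1, large_N e2, large_N e3,
    small_tau (show 0 < ε * x / 2 by positivity)] with t g1 g2 g3 g4 a ha z w h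
  have ha0 : 0 < a := lt_of_lt_of_le hε ha.1
  have ha1 : a ≤ 1 := by linarith [ha.2]
  have hax : 2 * t.1 ≤ a * x := by
    have : ε * x ≤ a * x := by
      have := ha.1
      gcongr
    linarith
  have haa : 2 * t.1 ≤ a ^ 2 := by
    refine hax.trans ?_
    have : x ≤ a := by linarith [ha.1]
    nlinarith
  have h5 := h.lower ha0 ha1 haa hx hax hκ g1 (by linarith [ha.1])
  have h6 : Real.exp (-(κ * a / 4)) ≤ 1 / 8 := by
    refine le_trans (Real.exp_le_exp.mpr ?_) h1.le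
    have : κ * ε ≤ κ * a := by
      gcongr
      exact ha.1
    linarith
  have hA := h.A_pos
  have h7 : (1 / 2 : ℝ) * A a w ≤ (1 - Real.exp (-(κ * a / 4)) -
      2 * κ * (Real.exp (6 * κ ^ 2 / t.2) - 1) - (8 / x) * Real.exp (-(κ * x / 4))) * A a w := by
    gcongr
    linarith
  linarith

lemma L6 (hε : 0 < ε) (hε1 : ε ≤ 1) {b : ℝ} (hb : 0 < b) (hbε : b < ε / 2) :
    Ev ε (fun _ _ z _ => ∀ j, b * ε / 48 ≤ ‖z j - b‖) := by
  have h5 := L5 hε hb hbε
  have hr : 0 < b * ε / 48 := by positivity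
  refine h5.mono ?_
  filter_upwards [large_N (exp_small (b * ε / 32) (b * ε / 48) (1 / 4) (by positivity)
      (by norm_num)), large_N (eventually_gt_atTop 0),
    small_tau (show 0 < b * ε / 32 by positivity)] with t hN hN0 hτ a ha z w h hA j
  have ha0 : 0 < a := lt_of_lt_of_le hε ha.1
  have ha1 : a ≤ 1 := by linarith [ha.2]
  have hNpos : (0 : ℝ) < t.2 := by exact_mod_cast hN0
  by_contra hc
  push Not at hc
  set r := b * ε / 48 with hrdef
  have hb1 : b ≤ 1 / 2 := by linarith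
  have hr2 : r ≤ b / 2 := by
    rw [hrdef]; nlinarith
  have hbound : ∀ ζ ∈ Metric.ball (b : ℂ) r, ‖dp w ζ‖ ≤
      A a w * Real.exp (-((t.2 : ℝ) * (b * ε / 32) / 2)) := by
    intro ζ hζ
    rw [Metric.mem_ball, dist_eq_norm] at hζ
    have h1 : |ζ.re - b| ≤ r := by
      have := Complex.abs_re_le_norm (ζ - b)
      simp only [Complex.sub_re, Complex.ofReal_re] at this
      linarith
    have h2 : |ζ.im| ≤ r := by
      have := Complex.abs_im_le_norm (ζ - b)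
      simp only [Complex.sub_im, Complex.ofReal_im, sub_zero] at this
      linarith
    rw [abs_le] at h1
    have hre0 : 0 ≤ ζ.re := by linarith
    have h3 := h.dp_le ha0 ha1 (x := ζ.re) (y := ζ.im) hre0
      (by linarith [ha.1])
    have e : (⟨ζ.re, ζ.im⟩ : ℂ) = ζ := by
      apply Complex.ext <;> rfl
    rw [e] at h3
    refine h3.trans ?_
    have hA0 := h.A_pos
    refine mul_le_mul_of_nonneg_left (Real.exp_le_exp.mpr ?_) hA0.le
    have h4 : b * ε / 8 ≤ ζ.re * (a - ζ.re) := by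
      have h5 : b / 2 ≤ ζ.re := by linarith
      have h6 : ε / 4 ≤ a - ζ.re := by linarith [ha.1]
      have h50 : 0 ≤ ζ.re := by linarith
      calc b * ε / 8 = (b / 2) * (ε / 4) := by ring
        _ ≤ _ := by gcongr
    have h7 : 2 * |ζ.im| + ζ.im ^ 2 ≤ 3 * r := by
      have h8 : ζ.im ^ 2 = |ζ.im| * |ζ.im| := by rw [← sq, sq_abs]
      have h9 := abs_nonneg ζ.im
      have hr1 : r ≤ 1 := by linarith
      nlinarith
    have h10 : -(ζ.re * (a - ζ.re)) + 2 * |ζ.im| + ζ.im ^ 2 ≤ -(b * ε / 16) := by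
      have : 3 * r = b * ε / 16 := by rw [hrdef]; ring
      linarith
    have h11 : 1 - ζ.re / a + (-(ζ.re * (a - ζ.re)) + 2 * |ζ.im| + ζ.im ^ 2) ≤ 1 := by
      have h12 : 0 ≤ ζ.re / a := div_nonneg hre0 ha0.le
      have h13 : 0 < b * ε / 16 := by positivity
      linarith
    have h14 := h.ht0
    have h15 : t.1 * (1 - ζ.re / a + (-(ζ.re * (a - ζ.re)) + 2 * |ζ.im| + ζ.im ^ 2)) ≤ t.1 * 1 := by
      gcongr
    have h16 : (-(ζ.re * (a - ζ.re)) + 2 * |ζ.im| + ζ.im ^ 2) +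
        t.1 * (1 - ζ.re / a + (-(ζ.re * (a - ζ.re)) + 2 * |ζ.im| + ζ.im ^ 2))
        ≤ -(b * ε / 32) := by linarith
    calc _ ≤ ((t.2 : ℝ) / 2) * (-(b * ε / 32)) := by gcongr
      _ = _ := by ring
  have hbb : (b : ℂ) ∈ Metric.ball (b : ℂ) r := Metric.mem_ball_self hr
  have hzb : z j ∈ Metric.ball (b : ℂ) r := by
    rw [Metric.mem_ball, dist_eq_norm]
    exact hc
  have h1 := (convex_ball (b : ℂ) r).norm_image_sub_le_of_norm_hasDerivWithin_le
    (fun ζ _ => (h.hd ζ).hasDerivWithinAt) hbound hzb hbb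
  have h2 : pp a z (z j) = 0 := by
    unfold pp
    rw [Finset.prod_eq_zero (Finset.mem_univ j) (sub_self _), mul_zero]
  rw [h2, sub_zero] at h1
  have h3 : ‖(b : ℂ) - z j‖ ≤ r := by
    rw [norm_sub_rev]
    exact hc.le
  have hA0 := h.A_pos
  have hE := Real.exp_pos (-((t.2 : ℝ) * (b * ε / 32) / 2))
  have h4 : ‖pp a z (b : ℂ)‖ ≤ A a w * Real.exp (-((t.2 : ℝ) * (b * ε / 32) / 2)) * r := by
    refine h1.trans ?_
    gcongr
  have h6 : A a w ≤ 4 * t.2 * (A a w * Real.exp (-((t.2 : ℝ) * (b * ε / 32) / 2)) * r) := by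
    refine hA.trans ?_
    gcongr
  have h7 : A a w * 1 ≤ A a w * (4 * (t.2 * (r * Real.exp (-((t.2 : ℝ) * (b * ε / 32) / 2))))) := by
    refine le_trans (by linarith) (h6.trans (le_of_eq ?_))
    ring
  have h8 := le_of_mul_le_mul_left h7 hA0
  linarith

variable {τ a : ℝ} {N : ℕ} {z w : Fin N → ℂ}

/-- upper bound for q -/
lemma CG.q_le (h : CG τ a N z w) (ha : 0 < a) (ha1 : a ≤ 1) {b : ℝ} (hb : 0 ≤ b) (hba : b < a)
    (hτb : 2 * τ ≤ a * b) : ‖q z (b : ℂ)‖ ≤ A a w := by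
  have hA0 := h.A_pos
  have h1 := norm_image_sub_le_of_norm_deriv_le_segment' (a := 0) (b := a - b)
      (f := fun s : ℝ => pp a z ((a : ℂ) - s))
      (f' := fun s : ℝ => -dp w ((a : ℂ) - s)) (C := A a w)
      (fun s _ => (h.pp_deriv s).hasDerivWithinAt) (fun s hs => ?_) (a - b) ⟨by linarith, le_rfl⟩
  · have h2 : pp a z ((a : ℂ) - ((a - b : ℝ) : ℂ)) = pp a z (b : ℂ) := by
      congr 1
      push_cast
      ring
    simp only [h2, Complex.ofReal_zero, sub_zero, pp_self] at h1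
    rw [norm_q, abs_of_neg (by linarith)] at h1
    have h3 : (a - b) * ‖q z (b : ℂ)‖ ≤ (a - b) * A a w := by linarith
    exact le_of_mul_le_mul_left h3 (by linarith)
  · have hbs : b ≤ a - s := by linarith [hs.2]
    have h2 := h.dp_le_real ha ha1 (x := a - s) (by linarith) (by linarith [hs.1])
      (hτb.trans (by gcongr))
    have h3 : ((a - s : ℝ) : ℂ) = (a : ℂ) - s := by push_cast; rfl
    rw [h3] at h2
    rw [norm_neg]
    refine h2.trans ?_
    have : Real.exp (-(N / 4 : ℝ) * ((a - s) * (a - (a - s)))) ≤ 1 := by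
      apply Real.exp_le_one_iff.mpr
      have h4 : 0 ≤ (a - s) * (a - (a - s)) := mul_nonneg (by linarith) (by linarith [hs.1])
      have h5 : (0 : ℝ) ≤ N := Nat.cast_nonneg N
      nlinarith
    nlinarith

lemma L7 (hε : 0 < ε) {b : ℝ} (hb : 0 < b) (hbε : b < ε / 2) :
    Ev ε (fun a N z w => Real.log (A a w) - Real.log (4 * N) ≤ Real.log ‖q z (b : ℂ)‖ ∧
      Real.log ‖q z (b : ℂ)‖ ≤ Real.log (A a w) ∧ 0 < ‖q z (b : ℂ)‖) := by
  refine (L5 hε hb hbε).mono ?_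
  filter_upwards [large_N (eventually_gt_atTop 0), small_tau (show 0 < ε * b / 2 by positivity)]
    with t hN0 hτ a ha z w h hA
  have ha0 : 0 < a := lt_of_lt_of_le hε ha.1
  have ha1 : a ≤ 1 := by linarith [ha.2]
  have hNpos : (0 : ℝ) < t.2 := by exact_mod_cast hN0
  have hA0 := h.A_pos
  have hba : b < a := by linarith [ha.1]
  have hab : 2 * t.1 ≤ a * b := by
    have : ε * b ≤ a * b := by
      have := ha.1
      gcongr
    linarith
  rw [norm_q, abs_of_neg (by linarith)] at hA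
  have hq0 : 0 < ‖q z (b : ℂ)‖ := by
    by_contra hc
    push Not at hc
    have h0 : ‖q z (b : ℂ)‖ = 0 := le_antisymm hc (norm_nonneg _)
    rw [h0] at hA
    simp at hA
    linarith
  refine ⟨?_, Real.log_le_log hq0 (h.q_le ha0 ha1 hb.le hba hab), hq0⟩
  rw [sub_le_iff_le_add, ← Real.log_mul hq0.ne' (by positivity)]
  apply Real.log_le_log hA0
  refine hA.trans ?_
  have : -(b - a) * ‖q z (b : ℂ)‖ ≤ 1 * ‖q z (b : ℂ)‖ := by
    gcongr
    linarith
  nlinarith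

lemma log4N_small {δ : ℝ} (hδ : 0 < δ) : ∀ᶠ N : ℕ in atTop, Real.log (4 * N) ≤ δ * N := by
  have h1 : Tendsto (fun x : ℝ => Real.log x / x) atTop (𝓝 0) := by
    have := Real.isLittleO_log_id_atTop.tendsto_div_nhds_zero
    simpa using this
  have h2 : Tendsto (fun N : ℕ => (4 * N : ℝ)) atTop atTop :=
    tendsto_natCast_atTop_atTop.const_mul_atTop four_pos
  have h3 := h1.comp h2
  filter_upwards [h3.eventually (gt_mem_nhds (show 0 < δ / 4 by positivity)),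
    eventually_gt_atTop 0] with N hN hN0
  have hNpos : (0 : ℝ) < N := by exact_mod_cast hN0
  simp only [Function.comp] at hN
  rw [div_lt_iff₀ (by positivity)] at hN
  linarith

lemma L8 (hε : 0 < ε) (hε1 : ε ≤ 1) {δ : ℝ} (hδ : 0 < δ) :
    Ev ε (fun a N z w => Real.log (A a w) ≤ δ * N ∧ Del z ≤ δ * N) := by
  obtain ⟨b, hb, hbε, hbδ⟩ : ∃ b : ℝ, 0 < b ∧ b < ε / 2 ∧ b ≤ δ / 48 :=
    ⟨min (ε / 4) (δ / 48), lt_min (by positivity) (by positivity),
      lt_of_le_of_lt (min_le_left _ _) (by linarith), min_le_right _ _⟩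
  refine ((L7 hε hb hbε).and (L6 hε hε1 hb hbε)).mono ?_
  filter_upwards [large_N (log4N_small (show 0 < δ / 48 by positivity)),
    small_tau (show 0 < δ / 48 by positivity)] with t hN hτ a ha z w h hA
  obtain ⟨⟨h1, h2, h3⟩, h4⟩ := hA
  have hr : 0 < b * ε / 48 := by positivity
  have hne : ∀ j, (b : ℂ) ≠ z j := by
    intro j hc
    have := h4 j
    rw [← hc, sub_self, norm_zero] at this
    linarith
  have hb1 : b < 1 := by linarith
  have h5 := HH_lower h.hz hb hb1 hne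
  have h6 := HH_le h.hz hb hb1
  have h7 := Del_nonneg h.hz
  have hN0 : (0 : ℝ) ≤ t.2 := Nat.cast_nonneg t.2
  have h8 : (1 / 3 : ℝ) ≤ (1 - b) / (1 + b) := by
    rw [div_le_div_iff₀ (by norm_num) (by linarith)]
    linarith
  have h9 : (1 / 3 : ℝ) / 4 * Del z ≤ (1 - b) / (1 + b) / 4 * Del z := by gcongr
  have h10 : t.2 * b ≤ t.2 * (δ / 48) := by gcongr
  have h11 := h.logA_ge'
  have h12 : (0 : ℝ) ≤ δ * t.2 := by positivity
  have h13 : t.1 * t.2 ≤ δ / 48 * t.2 := by gcongr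
  constructor
  · nlinarith
  · nlinarith

lemma L9 (hε : 0 < ε) (hε1 : ε ≤ 1) {b : ℝ} (hb : 0 < b) (hbε : b < ε / 2) {δ : ℝ} (hδ : 0 < δ) :
    Ev ε (fun _ N z _ => |HH z b| ≤ δ * N) := by
  set r := b * ε / 48 with hr
  have hr0 : 0 < r := by positivity
  set δ' : ℝ := min (δ / 2) (δ * r ^ 2) with hδ'
  have hδ'0 : 0 < δ' := lt_min (by positivity) (by positivity)
  refine (((L7 hε hb hbε).and (L6 hε hε1 hb hbε)).and (L8 hε hε1 hδ'0)).mono ?_
  filter_upwards [large_N (log4N_small (half_pos hδ)), small_tau (half_pos hδ)]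
    with t hN hτ a ha z w h hA
  obtain ⟨⟨⟨h1, h2, h3⟩, h4⟩, h5, h6⟩ := hA
  have hb1 : b < 1 := by linarith
  have hne : ∀ j, (b : ℂ) ≠ z j := by
    intro j hc
    have := h4 j
    rw [← hc, sub_self, norm_zero] at this
    linarith
  have h7 := HH_lower h.hz hb hb1 hne
  have h8 := HH_upper h.hz hb hb1 hr0 h4
  have h9 := Del_nonneg h.hz
  have hN0 : (0 : ℝ) ≤ t.2 := Nat.cast_nonneg t.2
  have h11 := h.logA_ge'
  have h11' : t.1 * t.2 ≤ δ / 2 * t.2 := by gcongr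
  have h110 : (0 : ℝ) ≤ δ * t.2 := by positivity
  have hc0 : 0 ≤ (1 - b) / (1 + b) / 4 := by
    have : 0 ≤ (1 - b) / (1 + b) := div_nonneg (by linarith) (by linarith)
    positivity
  have h12 := mul_nonneg hc0 h9
  rw [abs_le]
  constructor
  · linarith
  · have h13 : (1 / (2 * r ^ 2)) * Del z ≤ (δ / 2) * t.2 := by
      have h14 : Del z ≤ (δ * r ^ 2) * t.2 := by
        refine h6.trans ?_
        gcongr
        exact min_le_right _ _
      calc (1 / (2 * r ^ 2)) * Del z ≤ (1 / (2 * r ^ 2)) * ((δ * r ^ 2) * t.2) := by gcongr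
        _ = _ := by field_simp
    have h15 : δ' * t.2 ≤ (δ / 2) * t.2 := by
      gcongr
      exact min_le_left _ _
    linarith

end Pool.Agent.X104.Gap
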