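import Pool.Agent.X104.Gap.Gp3

/-!
The middle range with a slack, part 4 (compare `Pool.Agent.H218R3.Sd4`): the power sums of the
critical points are `o(N)`.
-/

set_option autoImplicit false
set_option linter.unusedVariables false

open Complex Filter Topology

namespace Pool.Agent.X104.Gap

open Pool.Agent.H218R3.Sd (pp dp A yy lam q HH Del re_inv_ge norm_inv_le HH_scale RR taylor_bound)

variable {τ a : ℝ} {N : ℕ} {z w : Fin N → ℂ}

/-- partial fractions at a point which is no zero -/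
lemma CG.dp_eq (h : CG τ a N z w) {ξ : ℂ} (h0 : ξ ≠ a) (hz : ∀ j, ξ ≠ z j) :
    dp w ξ = pp a z ξ * ((ξ - a)⁻¹ + ∑ j, (ξ - z j)⁻¹) := by
  have h1 : HasDerivAt (fun ζ : ℂ => ∏ j, (ζ - z j)) (∑ i, (∏ j ∈ Finset.univ.erase i, (ξ - z j)) • (1 : ℂ)) ξ := by
    have := HasDerivAt.fun_finsetProd (u := (Finset.univ : Finset (Fin N)))
      (f := fun j ζ => ζ - z j) (f' := fun _ => (1 : ℂ)) (x := ξ)
      (fun i _ => (hasDerivAt_id ξ).sub_const (z i))
    simpa using this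
  have h2 : HasDerivAt (fun ζ : ℂ => (ζ - a)) 1 ξ := (hasDerivAt_id ξ).sub_const _
  have h3 := (h2.mul h1).unique (h.hd ξ)
  rw [← h3]
  have hd0 : ξ - a ≠ 0 := sub_ne_zero.mpr h0
  have h4 : ∀ i ∈ (Finset.univ : Finset (Fin N)), (∏ j ∈ Finset.univ.erase i, (ξ - z j)) • (1 : ℂ)
      = (∏ j, (ξ - z j)) * (ξ - z i)⁻¹ := by
    intro i _
    have hi : ξ - z i ≠ 0 := sub_ne_zero.mpr (hz i)
    rw [← Finset.mul_prod_erase Finset.univ (fun j => ξ - z j) (Finset.mem_univ i)]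
    simp only [smul_eq_mul, mul_one]
    field_simp
  rw [Finset.sum_congr rfl h4, ← Finset.mul_sum]
  unfold pp
  field_simp

lemma CG.compare (h : CG τ a N z w) (ha : 0 < a) (ha1 : a ≤ 1) {ξ : ℝ} (hξ : 1 < ξ) :
    |(∑ k, Real.log ‖(ξ : ℂ) - w k‖) - ∑ j, Real.log ‖(ξ : ℂ) - z j‖|
      ≤ Real.log (ξ + 1) - Real.log (ξ - 1) := by
  have hne : ∀ u : ℂ, ‖u‖ ≤ 1 → (ξ : ℂ) ≠ u := by
    intro u hu hc
    rw [← hc, Complex.norm_real, Real.norm_of_nonneg (by linarith)] at hu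
    linarith
  have hna : (ξ : ℂ) ≠ a := by
    apply hne
    rw [Complex.norm_real, Real.norm_of_nonneg ha.le]
    exact ha1
  have hN0 : (0 : ℝ) ≤ N := Nat.cast_nonneg N
  have h1 := h.dp_eq hna (fun j => hne _ (h.hz j))
  set S : ℂ := ((ξ : ℂ) - a)⁻¹ + ∑ j, ((ξ : ℂ) - z j)⁻¹ with hS
  have hanorm : ‖(a : ℂ)‖ ≤ 1 := by
    rw [Complex.norm_real, Real.norm_of_nonneg ha.le]
    exact ha1
  have hS1 : ((N : ℝ) + 1) / (ξ + 1) ≤ ‖S‖ := by
    refine le_trans ?_ (Complex.re_le_norm S)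
    rw [hS, Complex.add_re, Complex.re_sum]
    have h2 : ∑ j : Fin N, 1 / (ξ + 1) ≤ ∑ j, (((ξ : ℂ) - z j)⁻¹).re :=
      Finset.sum_le_sum (fun j _ => re_inv_ge (h.hz j) hξ)
    have h3 := re_inv_ge hanorm hξ
    simp only [Finset.sum_const, Finset.card_univ, Fintype.card_fin, nsmul_eq_mul] at h2
    have : ((N : ℝ) + 1) / (ξ + 1) = 1 / (ξ + 1) + N * (1 / (ξ + 1)) := by ring
    linarith
  have hS2 : ‖S‖ ≤ ((N : ℝ) + 1) / (ξ - 1) := by
    have h2 : ‖∑ j, ((ξ : ℂ) - z j)⁻¹‖ ≤ ∑ j : Fin N, 1 / (ξ - 1) :=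
      (norm_sum_le _ _).trans (Finset.sum_le_sum (fun j _ => norm_inv_le (h.hz j) hξ))
    have h3 := norm_inv_le hanorm hξ
    simp only [Finset.sum_const, Finset.card_univ, Fintype.card_fin, nsmul_eq_mul] at h2
    have h4 := norm_add_le ((ξ : ℂ) - a)⁻¹ (∑ j, ((ξ : ℂ) - z j)⁻¹)
    have : ((N : ℝ) + 1) / (ξ - 1) = 1 / (ξ - 1) + N * (1 / (ξ - 1)) := by ring
    rw [hS]
    linarith
  have hSpos : 0 < ‖S‖ := lt_of_lt_of_le (by positivity) hS1
  have hxa : 0 < ξ - a := by linarith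
  have e1 : Real.log ‖dp w (ξ : ℂ)‖ = Real.log (N + 1) + ∑ k, Real.log ‖(ξ : ℂ) - w k‖ := by
    unfold dp
    rw [norm_mul, norm_prod, Real.log_mul, Real.log_prod]
    · congr 2
      have : ((N : ℂ) + 1) = ((N + 1 : ℝ) : ℂ) := by push_cast; rfl
      rw [this, Complex.norm_real, Real.norm_of_nonneg (by positivity)]
    · intro k _
      exact norm_ne_zero_iff.mpr (sub_ne_zero.mpr (hne _ (h.hw k)))
    · have : ((N : ℂ) + 1) = ((N + 1 : ℝ) : ℂ) := by push_cast; rfl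
      rw [this, Complex.norm_real, Real.norm_of_nonneg (by positivity)]
      positivity
    · apply Finset.prod_ne_zero_iff.mpr
      intro k _
      exact norm_ne_zero_iff.mpr (sub_ne_zero.mpr (hne _ (h.hw k)))
  have e2 : Real.log ‖pp a z (ξ : ℂ) * S‖ = Real.log (ξ - a) + ∑ j, Real.log ‖(ξ : ℂ) - z j‖
      + Real.log ‖S‖ := by
    have e3 : ‖(ξ : ℂ) - a‖ = ξ - a := by
      rw [← Complex.ofReal_sub, Complex.norm_real, Real.norm_of_nonneg hxa.le]
    unfold pp
    rw [norm_mul, norm_mul, norm_prod, Real.log_mul, Real.log_mul, Real.log_prod, e3]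
    · intro k _
      exact norm_ne_zero_iff.mpr (sub_ne_zero.mpr (hne _ (h.hz k)))
    · rw [e3]; exact hxa.ne'
    · apply Finset.prod_ne_zero_iff.mpr
      intro k _
      exact norm_ne_zero_iff.mpr (sub_ne_zero.mpr (hne _ (h.hz k)))
    · rw [e3]
      refine mul_ne_zero hxa.ne' ?_
      apply Finset.prod_ne_zero_iff.mpr
      intro k _
      exact norm_ne_zero_iff.mpr (sub_ne_zero.mpr (hne _ (h.hz k)))
    · exact hSpos.ne'
  rw [h1, e2] at e1
  have l1 : Real.log ((N : ℝ) + 1) - Real.log (ξ + 1) ≤ Real.log ‖S‖ := by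
    rw [← Real.log_div (by positivity) (by linarith)]
    exact Real.log_le_log (by positivity) hS1
  have l2 : Real.log ‖S‖ ≤ Real.log ((N : ℝ) + 1) - Real.log (ξ - 1) := by
    rw [← Real.log_div (by positivity) (by linarith)]
    exact Real.log_le_log hSpos hS2
  have l3 : Real.log (ξ - a) ≤ Real.log (ξ + 1) := Real.log_le_log hxa (by linarith)
  have l4 : Real.log (ξ - 1) ≤ Real.log (ξ - a) := Real.log_le_log (by linarith) (by linarith)
  rw [abs_le]
  constructor <;> linarith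

variable {ε : ℝ}

lemma L10 (hε : 0 < ε) (hε1 : ε ≤ 1) {b : ℝ} (hb : 0 < b) (hbε : b < ε / 2) {δ : ℝ} (hδ : 0 < δ) :
    Ev ε (fun _ N _ w => |HH w b| ≤ δ * N) := by
  refine (L9 hε hε1 hb hbε (show 0 < δ / 2 by positivity)).mono ?_
  have h1 : ∀ᶠ N : ℕ in atTop, (Real.log (b⁻¹ + 1) - Real.log (b⁻¹ - 1)) / (δ / 2) ≤ (N : ℝ) :=
    tendsto_natCast_atTop_atTop.eventually (eventually_ge_atTop _)
  filter_upwards [large_N h1]
  rintro ⟨τ, N⟩ hN a ha z w h hH
  dsimp only at z w h hN hH ⊢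
  have ha0 : 0 < a := lt_of_lt_of_le hε ha.1
  have ha1 : a ≤ 1 := by linarith [ha.2]
  have hb1 : b < 1 := by linarith
  have h2 := h.compare ha0 ha1 (ξ := b⁻¹) ((one_lt_inv₀ hb).mpr hb1)
  have h3 : HH w b - HH z b = (∑ k, Real.log ‖((b⁻¹ : ℝ) : ℂ) - w k‖)
      - ∑ j, Real.log ‖((b⁻¹ : ℝ) : ℂ) - z j‖ := by
    rw [HH_scale w h.hw hb hb1, HH_scale z h.hz hb hb1]
    ring
  rw [← h3] at h2
  rw [div_le_iff₀ (by positivity)] at hN
  calc |HH w b| = |(HH w b - HH z b) + HH z b| := by ring_nf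
    _ ≤ |HH w b - HH z b| + |HH z b| := abs_add_le _ _
    _ ≤ N * (δ / 2) + δ / 2 * N := by linarith
    _ = δ * N := by ring

lemma L11 (hε : 0 < ε) (hε1 : ε ≤ 1) (m : ℕ) : 1 ≤ m → ∀ δ : ℝ, 0 < δ →
    Ev ε (fun _ N _ w => |RR w m| ≤ δ * N) := by
  induction m using Nat.strong_induction_on with
  | _ m ih =>
    intro hm δ hδ
    have hm0 : (0 : ℝ) < m := by exact_mod_cast hm
    obtain ⟨b, hb, hbε, hbδ⟩ : ∃ b : ℝ, 0 < b ∧ b < ε / 2 ∧ b ≤ δ / (4 * m) :=
      ⟨min (ε / 4) (δ / (4 * m)), lt_min (by positivity) (by positivity),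
        lt_of_le_of_lt (min_le_left _ _) (by linarith), min_le_right _ _⟩
    set δ' : ℝ := (δ / 2) * (b ^ m / m) / m with hδ'
    have hδ'0 : 0 < δ' := by positivity
    have h1 : ∀ j ∈ Finset.range m, Ev ε (fun _ N _ w => 1 ≤ j → |RR w j| ≤ δ' * N) := by
      intro j hj
      by_cases hj1 : 1 ≤ j
      · refine (ih j (Finset.mem_range.mp hj) hj1 δ' hδ'0).mono ?_
        exact Eventually.of_forall (fun N a _ z w _ h _ => h)
      · exact Eventually.of_forall (fun N a _ z w _ h => absurd h hj1)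
    refine ((Ev.all _ h1).and (L10 hε hε1 hb hbε hδ'0)).mono ?_
    refine Eventually.of_forall ?_
    rintro ⟨τ, N⟩ a ha z w h hh
    dsimp only at z w h hh ⊢
    obtain ⟨hR, hG⟩ := hh
    have hN0 : (0 : ℝ) ≤ N := Nat.cast_nonneg N
    have hb1 : b ≤ 1 / 2 := by linarith
    have h2 := taylor_bound w h.hw m hb hb1
    rw [Finset.sum_range_succ] at h2
    have h3 : |∑ j ∈ Finset.range m, b ^ j / j * RR w j| ≤ (m - 1) * (δ' * N) := by
      obtain ⟨m', rfl⟩ : ∃ m', m = m' + 1 := ⟨m - 1, by omega⟩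
      rw [Finset.sum_range_succ']
      simp only [Nat.cast_zero, div_zero, zero_mul, add_zero]
      refine (Finset.abs_sum_le_sum_abs _ _).trans ?_
      have : ∀ j ∈ Finset.range m', |b ^ (j + 1) / ((j + 1 : ℕ) : ℝ) * RR w (j + 1)| ≤ δ' * N := by
        intro j hj
        rw [abs_mul, abs_of_nonneg (by positivity)]
        have h4 := hR (j + 1) (by rw [Finset.mem_range] at hj ⊢; omega) (by omega)
        have h5 : b ^ (j + 1) / ((j + 1 : ℕ) : ℝ) ≤ 1 := by
          rw [div_le_one (by positivity)]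
          have h6 : b ^ (j + 1) ≤ 1 := pow_le_one₀ hb.le (by linarith)
          have h7 : (1 : ℝ) ≤ ((j + 1 : ℕ) : ℝ) := by
            push_cast
            have : (0 : ℝ) ≤ j := Nat.cast_nonneg j
            linarith
          linarith
        calc _ ≤ 1 * |RR w (j + 1)| := by gcongr
          _ ≤ δ' * N := by linarith
      refine (Finset.sum_le_sum this).trans (le_of_eq ?_)
      simp
    have h4 : b ^ m / m * |RR w m| ≤ m * (δ' * N) + N * (2 * b ^ (m + 1)) := by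
      have h5 : b ^ m / m * RR w m = (HH w b + (∑ j ∈ Finset.range m, b ^ j / j * RR w j +
        b ^ m / m * RR w m)) - HH w b - ∑ j ∈ Finset.range m, b ^ j / j * RR w j := by ring
      have h6 : b ^ m / m * |RR w m| = |b ^ m / m * RR w m| := by
        rw [abs_mul, abs_of_nonneg (by positivity : 0 ≤ b ^ m / (m : ℝ))]
      rw [h6, h5]
      calc _ ≤ |(HH w b + (∑ j ∈ Finset.range m, b ^ j / j * RR w j +
            b ^ m / m * RR w m)) - HH w b| + |∑ j ∈ Finset.range m, b ^ j / j * RR w j| :=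
            abs_sub _ _
        _ ≤ (|(HH w b + (∑ j ∈ Finset.range m, b ^ j / j * RR w j +
            b ^ m / m * RR w m))| + |HH w b|) + |∑ j ∈ Finset.range m, b ^ j / j * RR w j| := by
            gcongr
            exact abs_sub _ _
        _ ≤ _ := by linarith
    have h5 : m * (δ' * N) = (b ^ m / m) * ((δ / 2) * N) := by
      rw [hδ']; field_simp
    have h6 : N * (2 * b ^ (m + 1)) ≤ (b ^ m / m) * ((δ / 2) * N) := by
      have h7 : N * (2 * b ^ (m + 1)) = (b ^ m / m) * (N * (2 * m * b)) := by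
        rw [pow_succ]; field_simp
      rw [h7]
      have h8 : 2 * m * b ≤ δ / 2 := by
        calc 2 * m * b ≤ 2 * m * (δ / (4 * m)) := by gcongr
          _ = δ / 2 := by field_simp; norm_num
      calc (b ^ m / m) * (N * (2 * m * b)) ≤ (b ^ m / m) * (N * (δ / 2)) := by gcongr
        _ = _ := by ring
    have h7 : (b ^ m / m) * |RR w m| ≤ (b ^ m / m) * (δ * N) := by
      calc _ ≤ _ := h4
        _ ≤ (b ^ m / m) * ((δ / 2) * N) + (b ^ m / m) * ((δ / 2) * N) := by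
            rw [h5]
            linarith
        _ = _ := by ring
    exact le_of_mul_le_mul_left h7 (by positivity)

end Pool.Agent.X104.Gap
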