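import Pool.Agent.X104.Gap.Gp4

/-!
The middle range with a slack, part 5 (compare `Pool.Agent.H218R3.Sd5`): the contradiction.
-/

set_option autoImplicit false
set_option linter.unusedVariables false

open Complex Filter Topology

namespace Pool.Agent.X104.Gap

open Pool.Agent.H218R3.Sd (pp dp A yy lam q HH Del RR cost_lower geom_id FF lower_term theta_bound
  FF_le)

variable {ε : ℝ}

/-- shifted power sums -/
lemma L12a (hε : 0 < ε) (hε1 : ε ≤ 1) {T : ℝ} (hT : 0 < T) (m : ℕ) {δ : ℝ} (hδ : 0 < δ) :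
    Ev ε (fun _ N _ w => |(∑ k, (w k + T) ^ m).re - N * T ^ m| ≤ δ * N) := by
  set δ' : ℝ := δ / (1 + T) ^ m with hδ'
  have hδ'0 : 0 < δ' := by positivity
  have h1 : ∀ j ∈ Finset.range (m + 1), Ev ε (fun _ N _ w => 1 ≤ j → |RR w j| ≤ δ' * N) := by
    intro j hj
    by_cases hj1 : 1 ≤ j
    · refine (L11 hε hε1 j hj1 δ' hδ'0).mono ?_
      exact Eventually.of_forall (fun N a _ z w _ h _ => h)
    · exact Eventually.of_forall (fun N a _ z w _ h => absurd h hj1)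
  refine (Ev.all _ h1).mono (Eventually.of_forall ?_)
  rintro ⟨τ, N⟩ a ha z w h hR
  dsimp only at z w h hR ⊢
  have hN0 : (0 : ℝ) ≤ N := Nat.cast_nonneg N
  have e1 : (∑ k, (w k + T) ^ m).re = ∑ j ∈ Finset.range (m + 1),
      (T ^ (m - j) * (m.choose j : ℝ)) * RR w j := by
    have h2 : ∀ k ∈ (Finset.univ : Finset (Fin N)), (w k + (T : ℂ)) ^ m =
        ∑ j ∈ Finset.range (m + 1), ((T ^ (m - j) * (m.choose j : ℝ) : ℝ) : ℂ) * w k ^ j := by
      intro k _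
      rw [add_pow]
      apply Finset.sum_congr rfl
      intro j _
      push_cast
      ring
    rw [Finset.sum_congr rfl h2, Finset.sum_comm, Complex.re_sum]
    apply Finset.sum_congr rfl
    intro j _
    rw [← Finset.mul_sum, Complex.re_ofReal_mul]
    rfl
  have hR0 : RR w 0 = N := by
    unfold RR
    simp
  rw [e1, Finset.sum_range_succ']
  simp only [Nat.sub_zero, Nat.choose_zero_right, Nat.cast_one, mul_one, hR0]
  have e2 : (∑ j ∈ Finset.range m, T ^ (m - (j + 1)) * (m.choose (j + 1) : ℝ) * RR w (j + 1)) +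
      T ^ m * N - N * T ^ m = ∑ j ∈ Finset.range m, T ^ (m - (j + 1)) * (m.choose (j + 1) : ℝ) *
        RR w (j + 1) := by ring
  rw [e2]
  refine (Finset.abs_sum_le_sum_abs _ _).trans ?_
  have h3 : ∀ j ∈ Finset.range m, |T ^ (m - (j + 1)) * (m.choose (j + 1) : ℝ) * RR w (j + 1)| ≤
      (T ^ (m - (j + 1)) * (m.choose (j + 1) : ℝ)) * (δ' * N) := by
    intro j hj
    rw [abs_mul, abs_of_nonneg (by positivity)]
    have := hR (j + 1) (by rw [Finset.mem_range] at hj ⊢; omega) (by omega)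
    gcongr
  refine (Finset.sum_le_sum h3).trans ?_
  rw [← Finset.sum_mul]
  have h4 : ∑ j ∈ Finset.range m, T ^ (m - (j + 1)) * (m.choose (j + 1) : ℝ) ≤ (1 + T) ^ m := by
    rw [add_pow, Finset.sum_range_succ']
    simp only [one_pow, one_mul]
    have : 0 ≤ T ^ (m - 0) * (m.choose 0 : ℝ) := by positivity
    linarith
  calc _ ≤ (1 + T) ^ m * (δ' * N) := by gcongr
    _ = δ * N := by
        rw [hδ']; field_simp

variable {τ a : ℝ} {N : ℕ} {z w : Fin N → ℂ}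

lemma CG.upper_term (h : CG τ a N z w) {T θ ε CM η₀ : ℝ} (hε : 0 < ε) (ha : ε ≤ a)
    (ha1 : a ≤ 1) (hT1 : 1 ≤ T)
    (haT2 : 4 ≤ a * T) (hθ0 : 0 ≤ θ) (hθ : 1 - 1 / (1 + T) ^ 2 ≤ θ ^ 2) (M : ℕ)
    (hCM : CM = ∑ m ∈ Finset.range M, (1 + T) ^ m)
    (hη₀ : η₀ = (1 + ε ^ 2 / 2) - 1 - Real.log (1 + ε ^ 2 / 2)) (hη₀0 : 0 < η₀) (k : Fin N) :
    (FF a T M (w k)).re ≤ a * ‖yy a w k‖ * (1 + θ ^ M) + (CM / η₀) *
      ((‖w k - (a : ℂ)‖ ^ 2)⁻¹ - 1 - Real.log ((‖w k - (a : ℂ)‖ ^ 2)⁻¹)) := by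
  have ha0 : 0 < a := lt_of_lt_of_le hε ha
  have hT : 0 < T := by linarith
  have haT : 0 < a + T := by linarith
  have hs := h.s_pos k
  have hn := h.npos k
  have hCM0 : 0 ≤ CM := by
    rw [hCM]
    exact Finset.sum_nonneg (fun m _ => by positivity)
  have hcost : 0 ≤ (‖w k - (a : ℂ)‖ ^ 2)⁻¹ - 1 - Real.log ((‖w k - (a : ℂ)‖ ^ 2)⁻¹) := by
    have := Real.log_le_sub_one_of_pos hs
    linarith
  have hw := h.hw k
  have hw2 : (w k).re ^ 2 + (w k).im ^ 2 ≤ 1 := by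
    have : ‖w k‖ ^ 2 ≤ 1 := by
      have := norm_nonneg (w k)
      nlinarith
    rw [Complex.sq_norm, Complex.normSq_apply] at this
    nlinarith
  by_cases hre : (w k).re ≤ 3 * a / 4
  · have h3 : (FF a T M (w k)).re ≤ a * ‖yy a w k‖ * (1 + θ ^ M) := by
      refine (Complex.re_le_norm _).trans ?_
      unfold FF
      rw [geom_id hT ha0 (h.hwa k), norm_mul, norm_mul, Complex.norm_real,
        Real.norm_of_nonneg ha0.le]
      unfold yy
      have h4 : ‖(w k + (T : ℂ)) / ((a + T : ℝ) : ℂ)‖ ≤ θ := by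
        rw [norm_div, Complex.norm_real, Real.norm_of_nonneg haT.le, div_le_iff₀ haT]
        exact theta_bound ha0 ha1 hT1 haT2 hθ0 hθ hw2 hre
      have h5 : ‖1 - ((w k + (T : ℂ)) / ((a + T : ℝ) : ℂ)) ^ M‖ ≤ 1 + θ ^ M := by
        refine (norm_sub_le _ _).trans ?_
        rw [norm_one, norm_pow]
        gcongr
      gcongr
    have h5 : 0 ≤ (CM / η₀) * ((‖w k - (a : ℂ)‖ ^ 2)⁻¹ - 1 -
      Real.log ((‖w k - (a : ℂ)‖ ^ 2)⁻¹)) := mul_nonneg (by positivity) hcost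
    linarith
  · push Not at hre
    have e2 : ‖w k - (a : ℂ)‖ ^ 2 = ((w k).re - a) ^ 2 + (w k).im ^ 2 := by
      rw [Complex.sq_norm, Complex.normSq_apply]
      simp only [Complex.sub_re, Complex.sub_im, Complex.ofReal_re, Complex.ofReal_im]
      ring
    have h3 : ‖w k - (a : ℂ)‖ ^ 2 ≤ 1 - a ^ 2 / 2 := by
      rw [e2]
      nlinarith
    have hs₀1 : 1 < 1 + ε ^ 2 / 2 := by
      have : 0 < ε ^ 2 / 2 := by positivity
      linarith
    have h4 : 1 + ε ^ 2 / 2 ≤ (‖w k - (a : ℂ)‖ ^ 2)⁻¹ := by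
      rw [le_inv_comm₀ (by linarith) (by positivity)]
      refine h3.trans ?_
      have h5 : ε ^ 2 ≤ a ^ 2 := by gcongr
      have h6 : 1 - a ^ 2 / 2 ≤ 1 - ε ^ 2 / 2 := by linarith
      refine h6.trans ?_
      rw [← one_div, le_div_iff₀ (by positivity)]
      nlinarith [sq_nonneg (ε ^ 2)]
    have h5 := cost_lower hs₀1 h4
    rw [← hη₀] at h5
    have h6 : (FF a T M (w k)).re ≤ CM := by
      rw [hCM]
      exact FF_le ha0 hT1 M hw
    have h7 : CM ≤ (CM / η₀) * ((‖w k - (a : ℂ)‖ ^ 2)⁻¹ - 1 -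
        Real.log ((‖w k - (a : ℂ)‖ ^ 2)⁻¹)) := by
      calc CM = (CM / η₀) * η₀ := by field_simp
        _ ≤ _ := by gcongr
    have h8 : 0 ≤ a * ‖yy a w k‖ * (1 + θ ^ M) := by positivity
    linarith

theorem final (hε : 0 < ε) (hε1 : ε ≤ 1) :
    ∀ᶠ t : ℝ × ℕ in fil, ∀ a ∈ Set.Icc ε (1 - ε), ∀ z w : Fin t.2 → ℂ, ¬ CG t.1 a t.2 z w := by
  obtain ⟨T, hTdef⟩ : ∃ T : ℝ, T = 4 / ε := ⟨_, rfl⟩
  have hT : 0 < T := by rw [hTdef]; positivity
  have hεT : ε * T = 4 := by rw [hTdef]; field_simp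
  have hT1 : 1 ≤ T := by nlinarith
  obtain ⟨θ, hθdef⟩ : ∃ θ : ℝ, θ = 1 - 1 / (2 * (1 + T) ^ 2) := ⟨_, rfl⟩
  have hθ0 : 0 ≤ θ := by
    rw [hθdef, sub_nonneg, div_le_one (by positivity)]
    nlinarith
  have hθ1 : θ < 1 := by
    rw [hθdef]
    have : 0 < 1 / (2 * (1 + T) ^ 2) := by positivity
    linarith
  have hθ2 : 1 - 1 / (1 + T) ^ 2 ≤ θ ^ 2 := by
    rw [hθdef]
    have : (1 - 1 / (2 * (1 + T) ^ 2)) ^ 2
        = 1 - 1 / (1 + T) ^ 2 + (1 / (2 * (1 + T) ^ 2)) ^ 2 := by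
      field_simp
      ring
    rw [this]
    have := sq_nonneg (1 / (2 * (1 + T) ^ 2))
    linarith
  have hρ1 : T / (ε + T) < 1 := by
    rw [div_lt_one (by positivity)]
    linarith
  have hρ0 : 0 ≤ T / (ε + T) := by positivity
  obtain ⟨M, hM1, hM2⟩ : ∃ M : ℕ, (T / (ε + T)) ^ M < ε / 8 ∧ θ ^ M < ε / 8 := by
    have t1 := tendsto_pow_atTop_nhds_zero_of_lt_one hρ0 hρ1
    have t2 := tendsto_pow_atTop_nhds_zero_of_lt_one hθ0 hθ1
    exact ((t1.eventually (gt_mem_nhds (show (0 : ℝ) < ε / 8 by positivity))).and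
      (t2.eventually (gt_mem_nhds (show (0 : ℝ) < ε / 8 by positivity)))).exists
  obtain ⟨CM, hCM⟩ : ∃ CM : ℝ, CM = ∑ m ∈ Finset.range M, (1 + T) ^ m := ⟨_, rfl⟩
  have hCM0 : 0 ≤ CM := by
    rw [hCM]
    exact Finset.sum_nonneg (fun m _ => by positivity)
  obtain ⟨η₀, hη₀⟩ : ∃ η₀ : ℝ, η₀ = (1 + ε ^ 2 / 2) - 1 - Real.log (1 + ε ^ 2 / 2) := ⟨_, rfl⟩
  have hη₀0 : 0 < η₀ := by
    have hp : 0 < ε ^ 2 / 2 := by positivity
    have := Real.log_lt_sub_one_of_pos (show 0 < 1 + ε ^ 2 / 2 by linarith) (by linarith)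
    rw [hη₀]
    linarith
  obtain ⟨δ, hδdef⟩ : ∃ δ : ℝ, δ = min (ε / (8 * (M + 1))) (ε * η₀ / (24 * (CM + 1))) := ⟨_, rfl⟩
  have hδ0 : 0 < δ := by
    rw [hδdef]
    exact lt_min (by positivity) (by positivity)
  have key : Ev ε (fun a N z w => (∀ m ∈ Finset.range M,
      |(∑ k, (w k + T) ^ m).re - N * T ^ m| ≤ δ * N) ∧
      (Real.log (A a w) ≤ δ * N ∧ Del z ≤ δ * N)) :=
    (Ev.all _ (fun m _ => L12a hε hε1 hT m hδ0)).and (L8 hε hε1 hδ0)
  filter_upwards [key, large_N (eventually_gt_atTop 0), small_tau hδ0,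
    small_tau (show 0 < ε / 8 by positivity)]
  rintro ⟨τ, N⟩ hN hNpos' hτδ hτε a ha z w h
  dsimp only at z w h hN hNpos' hτδ hτε
  obtain ⟨h1, h2, -⟩ := hN a ⟨ha.1, by linarith [ha.2]⟩ z w h
  have hNpos : (0 : ℝ) < N := by exact_mod_cast hNpos'
  have ha0 : 0 < a := lt_of_lt_of_le hε ha.1
  have ha1 : a ≤ 1 := by linarith [ha.2]
  have haT2 : 4 ≤ a * T := by
    rw [← hεT]
    have := ha.1
    gcongr
  have hτ0 := h.ht0
  -- lower bound
  have lower := lower_term ha0 hT1 hδ0 M w h1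
  -- combine
  have h3 : ∑ k, (FF a T M (w k)).re ≤ a * (1 + θ ^ M) * ((1 + τ / 2) * N)
      + (CM / η₀) * (3 * (δ * N)) := by
    refine (Finset.sum_le_sum (fun k _ =>
      h.upper_term hε ha.1 ha1 hT1 haT2 hθ0 hθ2 M hCM hη₀ hη₀0 k)).trans ?_
    rw [Finset.sum_add_distrib, ← Finset.sum_mul, ← Finset.mul_sum, ← Finset.mul_sum]
    have h4 := h.sum_norm_yy
    have h5 := h.sumlog
    have h6 : 0 ≤ Real.log ((N : ℝ) + 1) := Real.log_nonneg (by linarith)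
    have h60 : τ * N ≤ δ * N := by gcongr
    have h7 : (CM / η₀) * ∑ k, ((‖w k - (a : ℂ)‖ ^ 2)⁻¹ - 1 - Real.log ((‖w k - (a : ℂ)‖ ^ 2)⁻¹))
        ≤ (CM / η₀) * (3 * (δ * N)) := by
      have : 0 ≤ CM / η₀ := by positivity
      refine mul_le_mul_of_nonneg_left ?_ this
      linarith
    have h8 : a * (∑ k, ‖yy a w k‖) * (1 + θ ^ M) ≤ a * ((1 + τ / 2) * N) * (1 + θ ^ M) := by
      gcongr
    linarith
  have h4 := lower.trans h3
  have h5 : (T / (a + T)) ^ M ≤ (T / (ε + T)) ^ M := by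
    have := ha.1
    gcongr
  have h6 : M * δ ≤ ε / 8 := by
    have : δ ≤ ε / (8 * (M + 1)) := hδdef ▸ min_le_left _ _
    calc M * δ ≤ M * (ε / (8 * (M + 1))) := by gcongr
      _ = (ε / 8) * (M / (M + 1)) := by field_simp
      _ ≤ (ε / 8) * 1 := by
          gcongr
          rw [div_le_one (by positivity)]
          linarith
      _ = ε / 8 := mul_one _
  have h7 : (CM / η₀) * (3 * δ) ≤ ε / 8 := by
    have : δ ≤ ε * η₀ / (24 * (CM + 1)) := hδdef ▸ min_le_right _ _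
    calc (CM / η₀) * (3 * δ) ≤ (CM / η₀) * (3 * (ε * η₀ / (24 * (CM + 1)))) := by gcongr
      _ = (ε / 8) * (CM / (CM + 1)) := by field_simp; ring
      _ ≤ (ε / 8) * 1 := by
          gcongr
          rw [div_le_one (by positivity)]
          linarith
      _ = ε / 8 := mul_one _
  have h8 : N * (1 - (T / (a + T)) ^ M - M * δ) ≤
      N * (a * (1 + θ ^ M) * (1 + τ / 2) + (CM / η₀) * (3 * δ)) := by
    linarith
  have h9 := le_of_mul_le_mul_left h8 hNpos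
  have h10 : a * (1 + θ ^ M) ≤ (1 - ε) * 1 + 1 * (ε / 8) := by
    have h11 : a * (1 + θ ^ M) = a * 1 + a * θ ^ M := by ring
    rw [h11]
    have h12 : a * θ ^ M ≤ 1 * (ε / 8) := by
      have := hM2.le
      have h13 : 0 ≤ θ ^ M := by positivity
      gcongr
    have := ha.2
    linarith
  have h11 : a * (1 + θ ^ M) * (1 + τ / 2) ≤ (1 - ε) + ε / 8 + ε / 16 := by
    have h12 : a * (1 + θ ^ M) ≤ 1 := by linarith
    have h13 : a * (1 + θ ^ M) * (τ / 2) ≤ 1 * (ε / 16) := by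
      have : τ / 2 ≤ ε / 16 := by linarith
      have h14 : 0 ≤ a * (1 + θ ^ M) := by positivity
      gcongr
    linarith
  linarith

/-- The gap: for every `ε > 0` there is `τ > 0` such that for all large `N`, all `a` in
`[ε, 1 - ε]` and all data, the inequality `∑ ‖w k - a‖⁻² ≤ (1 + τ) N` is impossible. -/
theorem gap (hε : 0 < ε) (hε1 : ε ≤ 1) : ∃ τ : ℝ, 0 < τ ∧ τ ≤ 1 ∧
    ∀ᶠ N : ℕ in atTop, ∀ a ∈ Set.Icc ε (1 - ε), ∀ z w : Fin N → ℂ, ¬ CG τ a N z w := by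
  have h1 := (final hε hε1).and (small_tau one_pos)
  obtain ⟨p, hp, q, hq, hpq⟩ := Filter.eventually_prod_iff.mp h1
  have h2 : ∀ᶠ τ : ℝ in 𝓝[>] 0, 0 < τ := self_mem_nhdsWithin
  obtain ⟨τ, hτ, hτ0⟩ := (hp.and h2).exists
  refine ⟨τ, hτ0, ?_, ?_⟩
  · obtain ⟨N, hN⟩ := hq.exists
    exact (hpq hτ hN).2
  · filter_upwards [hq] with N hN
    exact (hpq hτ hN).1

end Pool.Agent.X104.Gap
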